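import Mathlib

set_option autoImplicit false

/-! # Finite quotients of the free group which are injective on large balls -/

namespace Pool.Agent.Q202.PA

open FreeGroup

/-- the free group of rank two -/
abbrev F : Type := FreeGroup Bool

/-- balls -/
abbrev Bl (N : ℕ) : Type := {w : F // w.norm ≤ N}

theorem ball_finite (N : ℕ) : {w : F | w.norm ≤ N}.Finite := by
  have h1 : {L : List (Bool × Bool) | L.length ≤ N}.Finite := List.finite_length_le _ N
  refine (h1.image FreeGroup.mk).subset ?_
  intro w hw
  exact ⟨w.toWord, hw, FreeGroup.mk_toWord⟩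

instance (N : ℕ) : Finite (Bl N) := (ball_finite N).to_subtype

/-- the letters -/
def g (s : Bool × Bool) : F := FreeGroup.mk [s]

theorem g_norm (s : Bool × Bool) : (g s).norm = 1 := by
  simp [g, FreeGroup.norm]

theorem g_true (i : Bool) : g (i, true) = FreeGroup.of i := rfl

theorem g_false (i : Bool) : g (i, false) = (FreeGroup.of i)⁻¹ := by
  rw [g, FreeGroup.of, FreeGroup.inv_mk]; rfl

theorem g_flip (i b : Bool) : g (i, !b) = (g (i, b))⁻¹ := by
  cases b
  · rw [g_false]; simp [g_true]
  · rw [g_true]; simp [g_false]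

/-- partial translation by a generator extended to a permutation -/
theorem exists_perm (N : ℕ) (i : Bool) : ∃ σ : Equiv.Perm (Bl N),
    ∀ (x y : Bl N), y.1 = FreeGroup.of i * x.1 → σ x = y := by
  have hfin : Finite {w : F // w.norm ≤ N ∧ (FreeGroup.of i * w).norm ≤ N} := by
    have : {w : F | w.norm ≤ N ∧ (FreeGroup.of i * w).norm ≤ N}.Finite :=
      (ball_finite N).subset fun w hw => hw.1
    exact this.to_subtype
  obtain ⟨σ, hσ⟩ := Equiv.Perm.exists_extending_pair
    (α := {w : F // w.norm ≤ N ∧ (FreeGroup.of i * w).norm ≤ N}) (β := Bl N)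
    (fun w => ⟨w.1, w.2.1⟩) (fun w => ⟨FreeGroup.of i * w.1, w.2.2⟩)
    (by
      intro x y h
      simp only [Subtype.mk.injEq] at h
      exact Subtype.ext h)
    (by
      intro x y h
      simp only [Subtype.mk.injEq] at h
      exact Subtype.ext (mul_left_cancel h))
  refine ⟨σ, fun x y h => ?_⟩
  have h1 := hσ ⟨x.1, x.2, by rw [← h]; exact y.2⟩
  have h2 : (⟨FreeGroup.of i * x.1, by rw [← h]; exact y.2⟩ : Bl N) = y := Subtype.ext h.symm
  exact h1.trans h2

/-- the permutations -/
noncomputable def sg (N : ℕ) (i : Bool) : Equiv.Perm (Bl N) := (exists_perm N i).choose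

theorem sg_spec (N : ℕ) (i : Bool) (x y : Bl N) (h : y.1 = FreeGroup.of i * x.1) :
    sg N i x = y := (exists_perm N i).choose_spec x y h

/-- the homomorphism -/
noncomputable def ph (N : ℕ) : F →* Equiv.Perm (Bl N) := FreeGroup.lift (sg N)

theorem ph_g (N : ℕ) (s : Bool × Bool) (x y : Bl N) (h : y.1 = g s * x.1) :
    ph N (g s) x = y := by
  obtain ⟨i, b⟩ := s
  cases b
  · have h1 := sg_spec N i y x (by rw [h, g_false, mul_inv_cancel_left])
    have h3 : ph N (g (i, false)) = (sg N i)⁻¹ := by
      rw [g_false]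
      refine (_root_.map_inv (ph N) _).trans ?_
      rw [ph, FreeGroup.lift_apply_of]
    rw [h3, ← h1]
    simp
  · have h3 : ph N (g (i, true)) = sg N i := by
      rw [g_true, ph, FreeGroup.lift_apply_of]
    rw [h3]
    exact sg_spec N i x y h

/-- the base point -/
def b1 (N : ℕ) : Bl N := ⟨1, by rw [FreeGroup.norm_one]; exact Nat.zero_le _⟩

theorem ph_apply (N : ℕ) : ∀ L : List (Bool × Bool), L.length ≤ N → ∀ y : Bl N,
    y.1 = FreeGroup.mk L → ph N (FreeGroup.mk L) (b1 N) = y := by
  intro L
  induction L with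
  | nil =>
    intro _ y hy
    have h1 : (FreeGroup.mk ([] : List (Bool × Bool))) = 1 := rfl
    have h2 : ph N (FreeGroup.mk ([] : List (Bool × Bool))) = 1 := by rw [h1, _root_.map_one]
    rw [h2]
    exact Subtype.ext hy.symm
  | cons s L ih =>
    intro h y hy
    have h1 : FreeGroup.mk (s :: L) = g s * FreeGroup.mk L := by
      rw [g, FreeGroup.mul_mk]; rfl
    have h2 : L.length ≤ N := by
      rw [List.length_cons] at h; omega
    have h3 := ih h2 ⟨FreeGroup.mk L, FreeGroup.norm_mk_le.trans h2⟩ rfl
    have h4 : ph N (FreeGroup.mk (s :: L)) = ph N (g s) * ph N (FreeGroup.mk L) := by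
      rw [h1, _root_.map_mul]
    rw [h4, Equiv.Perm.mul_apply, h3]
    exact ph_g N s _ y (by rw [hy, h1])

/-- injectivity on balls -/
theorem ph_inj (N : ℕ) {w w' : F} (h : w.norm ≤ N) (h' : w'.norm ≤ N) (he : ph N w = ph N w') :
    w = w' := by
  have h1 := ph_apply N w.toWord h ⟨w, h⟩ FreeGroup.mk_toWord.symm
  have h2 := ph_apply N w'.toWord h' ⟨w', h'⟩ FreeGroup.mk_toWord.symm
  rw [FreeGroup.mk_toWord] at h1 h2
  rw [he] at h1
  exact congrArg Subtype.val (h1.symm.trans h2)

/-! ### first letters -/

/-- the word starts with the letter `s` -/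
def St (s : Bool × Bool) (w : F) : Prop := w.toWord.head? = some s

theorem St_unique {s t : Bool × Bool} {w : F} (h : St s w) (h' : St t w) : s = t := by
  rw [St] at h h'
  rw [h] at h'
  exact Option.some_injective _ h'

/-- if `w` does not start with the inverse of `s` then `s w` starts with `s` -/
theorem St_mul (i b : Bool) {w : F} (h : ¬ St (i, !b) w) : St (i, b) (g (i, b) * w) := by
  rw [St] at h ⊢
  have h1 : (g (i, b) * w).toWord = FreeGroup.reduce ((i, b) :: w.toWord) := by
    rw [FreeGroup.toWord_mul]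
    congr 1
  rw [h1, FreeGroup.reduce.cons, FreeGroup.reduce_toWord]
  cases hw : w.toWord with
  | nil => simp
  | cons hd tl =>
    rw [hw] at h
    simp only [List.head?_cons, Option.some.injEq] at h
    have h2 : ¬ (i = hd.1 ∧ b = !hd.2) := by
      rintro ⟨h3, h4⟩
      apply h
      ext
      · exact h3.symm
      · simp only [h4, Bool.not_not]
    simp only [h2, if_false, List.head?_cons]

end Pool.Agent.Q202.PA
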