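import Mathlib

set_option autoImplicit false
set_option linter.unusedSectionVars false

/-! # Operators on `L¹` of a countable space are determined in norm by atoms -/

namespace Pool.Agent.Q202.PA

open MeasureTheory Filter Topology Set
open scoped ENNReal

variable {α : Type*} [MeasurableSpace α] [Countable α] [MeasurableSingletonClass α]
  {ν : Measure α} {E G : Type*} [NormedAddCommGroup E] [NormedSpace ℝ E] [NormedAddCommGroup G]
  [NormedSpace ℝ G]

theorem norm_ind {s : Set α} (hs : MeasurableSet s) (hν : ν s ≠ ∞) (c : E) :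
    ‖indicatorConstLp 1 hs hν c‖ = ‖c‖ * ν.real s := by
  rw [norm_indicatorConstLp one_ne_zero ENNReal.one_ne_top]
  simp

theorem finite_bound (T : Lp E 1 ν →L[ℝ] G) (K : ℝ)
    (h : ∀ (x : α) (hx : ν {x} ≠ ∞) (c : E),
      ‖T (indicatorConstLp 1 (measurableSet_singleton x) hx c)‖ ≤
        K * ‖indicatorConstLp 1 (measurableSet_singleton x) hx c‖) (c : E) {s : Set α}
    (hfin : s.Finite) : ∀ (hs : MeasurableSet s) (hν : ν s ≠ ∞),
      ‖T (indicatorConstLp 1 hs hν c)‖ ≤ K * ‖indicatorConstLp 1 hs hν c‖ := by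
  induction s, hfin using Set.Finite.induction_on with
  | empty =>
    intro hs hν
    have : indicatorConstLp 1 hs hν c = 0 := indicatorConstLp_empty
    rw [this, map_zero]; simp
  | @insert a s ha hsf ih =>
    intro hs hν
    have hs' : MeasurableSet s := hsf.measurableSet
    have hν' : ν s ≠ ∞ := ne_top_of_le_ne_top hν (measure_mono (subset_insert a s))
    have hνa : ν {a} ≠ ∞ := ne_top_of_le_ne_top hν
      (measure_mono (singleton_subset_iff.2 (mem_insert a s)))
    have hd : Disjoint {a} s := by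
      rw [Set.disjoint_singleton_left]; exact ha
    have hu : indicatorConstLp 1 hs hν c = indicatorConstLp 1 (measurableSet_singleton a) hνa c +
        indicatorConstLp 1 hs' hν' c := by
      have := indicatorConstLp_disjoint_union (p := 1) (measurableSet_singleton a) hs' hνa hν'
        hd c
      rw [← this]
      rfl
    have hn : ‖indicatorConstLp 1 hs hν c‖ =
        ‖indicatorConstLp 1 (measurableSet_singleton a) hνa c‖ + ‖indicatorConstLp 1 hs' hν' c‖ := by
      rw [norm_ind, norm_ind, norm_ind, ← mul_add]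
      congr 1
      have : insert a s = {a} ∪ s := rfl
      rw [this, measureReal_union hd hs' hνa hν']
    rw [hn, hu, map_add, mul_add]
    exact (norm_add_le _ _).trans (add_le_add (h a hνa c) (ih hs' hν'))

theorem ind_bound (T : Lp E 1 ν →L[ℝ] G) (K : ℝ)
    (h : ∀ (x : α) (hx : ν {x} ≠ ∞) (c : E),
      ‖T (indicatorConstLp 1 (measurableSet_singleton x) hx c)‖ ≤
        K * ‖indicatorConstLp 1 (measurableSet_singleton x) hx c‖) (c : E) {s : Set α}
    (hs : MeasurableSet s) (hν : ν s ≠ ∞) :
      ‖T (indicatorConstLp 1 hs hν c)‖ ≤ K * ‖indicatorConstLp 1 hs hν c‖ := by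
  obtain ⟨e, he⟩ := exists_injective_nat α
  set t : ℕ → Set α := fun n => s ∩ {x | e x < n} with ht
  have htfin : ∀ n, (t n).Finite := by
    intro n
    have : {x | e x < n}.Finite := Set.Finite.preimage he.injOn (Set.finite_lt_nat n)
    exact this.subset inter_subset_right
  have htm : ∀ n, MeasurableSet (t n) := fun n => (htfin n).measurableSet
  have htν : ∀ n, ν (t n) ≠ ∞ := fun n => ne_top_of_le_ne_top hν (measure_mono inter_subset_left)
  have hlim : Tendsto (fun n => ν (symmDiff (t n) s)) atTop (𝓝 0) := by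
    have h1 : ∀ n, symmDiff (t n) s = s \ t n := by
      intro n
      rw [Set.symmDiff_def, Set.diff_eq_empty.2 inter_subset_left, Set.empty_union]
    simp only [h1]
    have h2 : Tendsto (ν ∘ fun n => s \ t n) atTop (𝓝 (ν (⋂ n, s \ t n))) := by
      refine tendsto_measure_iInter_atTop (fun n => (hs.diff (htm n)).nullMeasurableSet) ?_
        ⟨0, ne_top_of_le_ne_top hν (measure_mono diff_subset)⟩
      intro n m hnm x hx
      refine ⟨hx.1, fun hx' => hx.2 ⟨hx'.1, ?_⟩⟩
      exact lt_of_lt_of_le hx'.2 hnm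
    have h3 : ⋂ n, s \ t n = ∅ := by
      rw [Set.eq_empty_iff_forall_notMem]
      intro x hx
      have h4 := Set.mem_iInter.1 hx (e x + 1)
      exact h4.2 ⟨h4.1, Nat.lt_succ_self _⟩
    rw [h3, measure_empty] at h2
    exact h2
  have hT : Tendsto (fun n => indicatorConstLp 1 (htm n) (htν n) c) atTop
      (𝓝 (indicatorConstLp 1 hs hν c)) := tendsto_indicatorConstLp_set (by simp) hlim
  have h1 : Tendsto (fun n => ‖T (indicatorConstLp 1 (htm n) (htν n) c)‖) atTop
      (𝓝 ‖T (indicatorConstLp 1 hs hν c)‖) := ((T.continuous.tendsto _).comp hT).norm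
  have h2 : Tendsto (fun n => K * ‖indicatorConstLp 1 (htm n) (htν n) c‖) atTop
      (𝓝 (K * ‖indicatorConstLp 1 hs hν c‖)) := hT.norm.const_mul K
  exact le_of_tendsto_of_tendsto' h1 h2 fun n => finite_bound T K h c (htfin n) _ _

theorem l1_bound (T : Lp E 1 ν →L[ℝ] G) (K : ℝ)
    (h : ∀ (x : α) (hx : ν {x} ≠ ∞) (c : E),
      ‖T (indicatorConstLp 1 (measurableSet_singleton x) hx c)‖ ≤
        K * ‖indicatorConstLp 1 (measurableSet_singleton x) hx c‖) (f : Lp E 1 ν) :
    ‖T f‖ ≤ K * ‖f‖ := by
  refine Lp.induction ENNReal.one_ne_top (motive := fun f => ‖T f‖ ≤ K * ‖f‖) ?_ ?_ ?_ f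
  · intro c s hs hμs
    rw [Lp.simpleFunc.coe_indicatorConst]
    exact ind_bound T K h c hs hμs.ne
  · intro f g hf hg hfg h1 h2
    have hn : ‖hf.toLp f + hg.toLp g‖ = ‖hf.toLp f‖ + ‖hg.toLp g‖ := by
      rw [← MemLp.toLp_add, Lp.norm_toLp, Lp.norm_toLp, Lp.norm_toLp, ← ENNReal.toReal_add
        hf.eLpNorm_ne_top hg.eLpNorm_ne_top]
      congr 1
      rw [eLpNorm_one_eq_lintegral_enorm, eLpNorm_one_eq_lintegral_enorm,
        eLpNorm_one_eq_lintegral_enorm, ← lintegral_add_left' hf.1.enorm]
      refine lintegral_congr fun x => ?_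
      rw [Pi.add_apply]
      by_cases hx : f x = 0
      · rw [hx]; simp
      · have hgx : g x = 0 := by
          by_contra hgx
          exact Set.disjoint_left.1 hfg (Function.mem_support.2 hx) (Function.mem_support.2 hgx)
        rw [hgx]; simp
    rw [hn, map_add, mul_add]
    exact (norm_add_le _ _).trans (add_le_add h1 h2)
  · exact isClosed_le (T.continuous.norm) (continuous_const.mul continuous_norm)

/-- a measure on a countable space which is not zero has an atom -/
theorem exists_atom (hν : ν ≠ 0) : ∃ x, ν {x} ≠ 0 := by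
  by_contra h0
  push Not at h0
  apply hν
  rw [← Measure.measure_univ_eq_zero, ← Set.iUnion_of_singleton]
  exact measure_iUnion_null h0

end Pool.Agent.Q202.PA
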