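import Pool.Agent.Q202.PA.Space

set_option autoImplicit false
set_option linter.deprecated false

/-! # The box space of the free group does not have property A -/

namespace Pool.Agent.Q202.PA

open Set

/-- `y` is reached from `x` by a short word with first letter `s` -/
def P (s : Bool × Bool) (x y : X) : Prop := ∃ w : F, w.norm ≤ x.n ∧ act w x = y ∧ St s w

theorem P_unique {s t : Bool × Bool} {x y : X} (h : P s x y) (h' : P t x y) : s = t := by
  obtain ⟨w, hw, hwy, hs⟩ := h
  obtain ⟨v, hv, hvy, ht⟩ := h'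
  have : w = v := act_free hw hv (hwy.trans hvy.symm)
  subst this
  exact St_unique hs ht

theorem P_step {i b : Bool} {x y : X} {v : F} (hv : act v (act (g (i, b)) x) = y)
    (hn : v.norm + 1 ≤ x.n) (h : ¬ P (i, !b) (act (g (i, b)) x) y) : P (i, b) x y := by
  have h1 : ¬ St (i, !b) v := by
    intro hs
    exact h ⟨v, by rw [act_fst]; omega, hv, hs⟩
  refine ⟨g (i, b) * v, ?_, ?_, St_mul i b h1⟩
  · refine (FreeGroup.norm_mul_le _ _).trans ?_
    rw [g_norm]; omega
  · rw [act_mul]; exact hv

/-- **Failure of property A.** -/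
theorem not_propertyA : ¬ (∀ R : ℝ, 0 < R → ∀ ε : ℝ, 0 < ε →
        ∃ S : ℝ, ∃ A : X → Set (X × ℕ),
          (∀ x, (A x).Finite) ∧ (∀ x, (x, 0) ∈ A x) ∧
          (∀ x, ∀ w ∈ A x, dist w.1 x ≤ S) ∧
          ∀ x y, dist x y < R →
            ((symmDiff (A x) (A y)).ncard : ℝ) < ε * ((A x ∩ A y).ncard : ℝ)) := by
  classical
  intro H
  obtain ⟨S, A, hfin, hmem, hS, hA⟩ := H 2 (by norm_num) (1 / 2) (by norm_num)
  set N : ℕ := ⌈S⌉₊ + 1 with hN
  have hSN : S + 1 ≤ N := by
    have := Nat.le_ceil S
    rw [hN]; push_cast; linarith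
  -- words to the points of the sets
  have hword : ∀ x : X, x.n = N → ∀ p ∈ A x, ∃ v : F, act v x = p.1 ∧ v.norm + 1 ≤ N := by
    intro x hx p hp
    have h1 := hS x p hp
    rw [dist_comm, dist_def] at h1
    by_cases h : Rl x p.1
    · rw [dN_pos h] at h1
      obtain ⟨v, hv, hvp⟩ := len_spec h
      refine ⟨v, hvp, ?_⟩
      have : ((v.norm : ℕ) : ℝ) + 1 ≤ N := by rw [hv]; linarith
      exact_mod_cast this
    · rw [dN_neg h] at h1
      have h2 := D_ge x.n
      have h3 : ((N : ℕ) : ℝ) ≤ ((D x.n + D p.1.n : ℕ) : ℝ) := by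
        rw [hx] at h2 ⊢
        exact_mod_cast (by omega : N ≤ D N + D p.1.n)
      linarith
  -- counts
  set c : X → ℝ := fun x => ((A x).ncard : ℝ) with hc
  have hcpos : ∀ x, 0 < c x := by
    intro x
    have : 0 < (A x).ncard := (ncard_pos (hfin x)).2 ⟨_, hmem x⟩
    simp only [hc]
    exact_mod_cast this
  set m : Bool × Bool → X → ℝ := fun s x => (({p ∈ A x | P s x p.1}).ncard : ℝ) / c x with hm
  -- pairs
  have hpair : ∀ (i : Bool) (x : X), x.n = N →
      2 / 3 ≤ m (i, true) x + m (i, false) (act (g (i, true)) x) := by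
    intro i x hx
    set x' := act (g (i, true)) x with hx'
    set I := (A x ∩ A x').ncard with hI
    have hd : dist x x' < 2 := by
      rw [dist_def]
      have h1 : Rl x x' := ⟨_, rfl⟩
      rw [dN_pos h1]
      have h2 : len x x' ≤ 1 := by
        have := len_le (x := x) (y := x') (w := g (i, true)) rfl
        rwa [g_norm] at this
      have h3 : ((len x x' : ℕ) : ℝ) ≤ 1 := by exact_mod_cast h2
      linarith
    have h1 := hA x x' hd
    have hcx : c x ≤ 3 / 2 * I := by
      have h2 : (A x).ncard ≤ (symmDiff (A x) (A x')).ncard + I := by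
        have : A x ⊆ symmDiff (A x) (A x') ∪ (A x ∩ A x') := by
          intro p hp
          by_cases hp' : p ∈ A x'
          · exact Or.inr ⟨hp, hp'⟩
          · exact Or.inl (Or.inl ⟨hp, hp'⟩)
        exact (ncard_le_ncard this ((((hfin x).union (hfin x')).subset
          (by
            rintro p (hp | hp)
            · rcases hp with hp | hp
              · exact Or.inl hp.1
              · exact Or.inr hp.1
            · exact Or.inl hp.1)))).trans (ncard_union_le _ _)
      have h3 : c x ≤ ((symmDiff (A x) (A x')).ncard : ℝ) + I := by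
        simp only [hc]
        exact_mod_cast h2
      linarith
    have hcx' : c x' ≤ 3 / 2 * I := by
      have h2 : (A x').ncard ≤ (symmDiff (A x) (A x')).ncard + I := by
        have : A x' ⊆ symmDiff (A x) (A x') ∪ (A x ∩ A x') := by
          intro p hp
          by_cases hp' : p ∈ A x
          · exact Or.inr ⟨hp', hp⟩
          · exact Or.inl (Or.inr ⟨hp, hp'⟩)
        exact (ncard_le_ncard this ((((hfin x).union (hfin x')).subset
          (by
            rintro p (hp | hp)
            · rcases hp with hp | hp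
              · exact Or.inl hp.1
              · exact Or.inr hp.1
            · exact Or.inl hp.1)))).trans (ncard_union_le _ _)
      have h3 : c x' ≤ ((symmDiff (A x) (A x')).ncard : ℝ) + I := by
        simp only [hc]
        exact_mod_cast h2
      linarith
    have hcount : I ≤ ({p ∈ A x | P (i, true) x p.1}).ncard +
        ({p ∈ A x' | P (i, false) x' p.1}).ncard := by
      have : A x ∩ A x' ⊆ {p ∈ A x | P (i, true) x p.1} ∪ {p ∈ A x' | P (i, false) x' p.1} := by
        rintro p ⟨hp, hp'⟩
        by_cases h : P (i, false) x' p.1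
        · exact Or.inr ⟨hp', h⟩
        · left
          refine ⟨hp, ?_⟩
          obtain ⟨v, hv, hvn⟩ := hword x' (by rw [hx', act_fst, hx]) p hp'
          exact P_step (b := true) hv (by rw [hx]; exact hvn) h
      exact (ncard_le_ncard this (((hfin x).subset (sep_subset _ _)).union
        ((hfin x').subset (sep_subset _ _)))).trans (ncard_union_le _ _)
    have hIpos : (0 : ℝ) < I := by
      have := hcpos x
      linarith
    have e1 : (({p ∈ A x | P (i, true) x p.1}).ncard : ℝ) / (3 / 2 * I) ≤ m (i, true) x :=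
      div_le_div_of_nonneg_left (by positivity) (hcpos x) hcx
    have e2 : (({p ∈ A x' | P (i, false) x' p.1}).ncard : ℝ) / (3 / 2 * I) ≤ m (i, false) x' :=
      div_le_div_of_nonneg_left (by positivity) (hcpos x') hcx'
    have e3 : (2 / 3 : ℝ) ≤ (({p ∈ A x | P (i, true) x p.1}).ncard : ℝ) / (3 / 2 * I) +
        (({p ∈ A x' | P (i, false) x' p.1}).ncard : ℝ) / (3 / 2 * I) := by
      rw [← add_div, le_div_iff₀ (by positivity)]
      have : (I : ℝ) ≤ (({p ∈ A x | P (i, true) x p.1}).ncard : ℝ) +
        (({p ∈ A x' | P (i, false) x' p.1}).ncard : ℝ) := by exact_mod_cast hcount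
      linarith
    linarith
  -- at most one letter
  have hsum : ∀ x, m (true, true) x + m (true, false) x + (m (false, true) x +
      m (false, false) x) ≤ 1 := by
    intro x
    have hdis : ∀ s t, s ≠ t → Disjoint {p ∈ A x | P s x p.1} {p ∈ A x | P t x p.1} := by
      intro s t hst
      rw [Set.disjoint_left]
      rintro p ⟨-, h1⟩ ⟨-, h2⟩
      exact hst (P_unique h1 h2)
    have hf : ∀ s, ({p ∈ A x | P s x p.1}).Finite := fun s => (hfin x).subset (sep_subset _ _)
    have h1 : ({p ∈ A x | P (true, true) x p.1} ∪ {p ∈ A x | P (true, false) x p.1}).ncard =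
        _ + _ := ncard_union_eq (hdis _ _ (by decide)) (hf _) (hf _)
    have h2 : ({p ∈ A x | P (false, true) x p.1} ∪ {p ∈ A x | P (false, false) x p.1}).ncard =
        _ + _ := ncard_union_eq (hdis _ _ (by decide)) (hf _) (hf _)
    have h3 : (({p ∈ A x | P (true, true) x p.1} ∪ {p ∈ A x | P (true, false) x p.1}) ∪
        ({p ∈ A x | P (false, true) x p.1} ∪ {p ∈ A x | P (false, false) x p.1})).ncard =
        _ + _ := ncard_union_eq (by
          rw [Set.disjoint_union_left, Set.disjoint_union_right, Set.disjoint_union_right]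
          exact ⟨⟨hdis _ _ (by decide), hdis _ _ (by decide)⟩,
            hdis _ _ (by decide), hdis _ _ (by decide)⟩) ((hf _).union (hf _))
          ((hf _).union (hf _))
    have h4 : (({p ∈ A x | P (true, true) x p.1} ∪ {p ∈ A x | P (true, false) x p.1}) ∪
        ({p ∈ A x | P (false, true) x p.1} ∪ {p ∈ A x | P (false, false) x p.1})).ncard ≤
        (A x).ncard := ncard_le_ncard (by
          rintro p ((h | h) | (h | h)) <;> exact h.1) (hfin x)
    rw [h3, h1, h2] at h4
    simp only [hm]
    rw [← add_div, ← add_div, ← add_div, div_le_one (hcpos x)]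
    simp only [hc]
    exact_mod_cast h4
  -- sum over the piece
  have hshift : ∀ i : Bool, ∑ q : Q N, m (i, false) (act (g (i, true)) ⟨N, q⟩) =
      ∑ q : Q N, m (i, false) ⟨N, q⟩ := by
    intro i
    exact Equiv.sum_comp (Equiv.mulRight (qt N (g (i, true)))) fun q => m (i, false) ⟨N, q⟩
  have h1 : ∀ i : Bool, (2 / 3) * (Fintype.card (Q N) : ℝ) ≤
      ∑ q : Q N, (m (i, true) ⟨N, q⟩ + m (i, false) ⟨N, q⟩) := by
    intro i
    rw [Finset.sum_add_distrib, ← hshift i, ← Finset.sum_add_distrib]
    calc (2 / 3) * (Fintype.card (Q N) : ℝ) = ∑ _q : Q N, (2 / 3 : ℝ) := by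
          rw [Finset.sum_const, Finset.card_univ, nsmul_eq_mul, mul_comm]
      _ ≤ _ := Finset.sum_le_sum fun q _ => hpair i ⟨N, q⟩ rfl
  have h2 : ∑ q : Q N, (m (true, true) ⟨N, q⟩ + m (true, false) ⟨N, q⟩ +
      (m (false, true) ⟨N, q⟩ + m (false, false) ⟨N, q⟩)) ≤ (Fintype.card (Q N) : ℝ) := by
    calc _ ≤ ∑ _q : Q N, (1 : ℝ) := Finset.sum_le_sum fun q _ => hsum ⟨N, q⟩
      _ = _ := by rw [Finset.sum_const, Finset.card_univ, nsmul_eq_mul, mul_one]
  rw [Finset.sum_add_distrib] at h2
  have h3 := h1 true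
  have h4 := h1 false
  have h5 : (0 : ℝ) < (Fintype.card (Q N) : ℝ) := by
    have : 0 < Fintype.card (Q N) := Fintype.card_pos
    exact_mod_cast this
  linarith

end Pool.Agent.Q202.PA
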