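import Pool.Agent.Q202.PA.FreeQ

set_option autoImplicit false
set_option linter.deprecated false

/-! # The box space of the free group -/

namespace Pool.Agent.Q202.PA

open Set

/-- the finite quotient -/
abbrev Q (N : ℕ) : Type := (ph N).range

/-- the box space -/
structure X : Type where
  /-- the number of the piece -/
  n : ℕ
  /-- the position in the piece -/
  q : Q n

/-- the element of the quotient -/
noncomputable def qt (N : ℕ) (w : F) : Q N := ⟨ph N w, ⟨w, rfl⟩⟩

theorem qt_mul (N : ℕ) (w w' : F) : qt N (w * w') = qt N w * qt N w' := by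
  apply Subtype.ext
  exact _root_.map_mul (ph N) w w'

theorem qt_one (N : ℕ) : qt N 1 = 1 := by
  apply Subtype.ext
  exact _root_.map_one (ph N)

theorem qt_surj (N : ℕ) (q : Q N) : ∃ w, qt N w = q := by
  obtain ⟨q, w, rfl⟩ := q
  exact ⟨w, rfl⟩

theorem qt_inj {N : ℕ} {w w' : F} (h : w.norm ≤ N) (h' : w'.norm ≤ N) (he : qt N w = qt N w') :
    w = w' := ph_inj N h h' (congrArg Subtype.val he)

/-- right multiplication -/
noncomputable def act (w : F) (x : X) : X := ⟨x.n, x.q * qt x.n w⟩

theorem act_fst (w : F) (x : X) : (act w x).n = x.n := rfl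

theorem act_mul (w w' : F) (x : X) : act (w * w') x = act w' (act w x) := by
  obtain ⟨N, q⟩ := x
  simp only [act, qt_mul]
  exact congrArg (X.mk N) (mul_assoc q (qt N w) (qt N w')).symm

theorem act_one (x : X) : act 1 x = x := by
  obtain ⟨N, q⟩ := x
  simp only [act, qt_one, mul_one]

theorem act_inv_act (w : F) (x : X) : act w⁻¹ (act w x) = x := by
  rw [← act_mul, mul_inv_cancel, act_one]

theorem act_free {x : X} {w w' : F} (h : w.norm ≤ x.n) (h' : w'.norm ≤ x.n)
    (he : act w x = act w' x) : w = w' := by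
  obtain ⟨N, q⟩ := x
  simp only [act] at he
  have h1 : q * qt N w = q * qt N w' := by
    injection he
  exact qt_inj h h' (mul_left_cancel h1)

/-- the relation of lying in the same piece -/
def Rl (x y : X) : Prop := ∃ w, act w x = y

theorem Rl_fst {x y : X} (h : Rl x y) : x.n = y.n := by
  obtain ⟨w, rfl⟩ := h
  rfl

theorem Rl_of_fst {N : ℕ} (p q : Q N) : Rl ⟨N, p⟩ ⟨N, q⟩ := by
  obtain ⟨w, hw⟩ := qt_surj N (p⁻¹ * q)
  refine ⟨w, ?_⟩
  simp only [act, hw, mul_inv_cancel_left]

theorem Rl_refl (x : X) : Rl x x := ⟨1, act_one x⟩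

theorem Rl_symm {x y : X} (h : Rl x y) : Rl y x := by
  obtain ⟨w, rfl⟩ := h
  exact ⟨w⁻¹, act_inv_act w x⟩

theorem Rl_trans {x y z : X} (h : Rl x y) (h' : Rl y z) : Rl x z := by
  obtain ⟨w, rfl⟩ := h
  obtain ⟨v, rfl⟩ := h'
  exact ⟨w * v, act_mul w v x⟩

/-- word length -/
noncomputable def len (x y : X) : ℕ := sInf {k | ∃ w : F, w.norm = k ∧ act w x = y}

theorem len_le {x y : X} {w : F} (h : act w x = y) : len x y ≤ w.norm := Nat.sInf_le ⟨w, rfl, h⟩

theorem len_spec {x y : X} (h : Rl x y) : ∃ w : F, w.norm = len x y ∧ act w x = y := by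
  obtain ⟨w, hw⟩ := h
  have : {k | ∃ w : F, w.norm = k ∧ act w x = y}.Nonempty := ⟨w.norm, w, rfl, hw⟩
  exact Nat.sInf_mem this

/-- length in the quotient -/
noncomputable def lq (N : ℕ) (q : Q N) : ℕ := sInf {k | ∃ w : F, w.norm = k ∧ qt N w = q}

theorem lq_spec (N : ℕ) (q : Q N) : ∃ w : F, w.norm = lq N q ∧ qt N w = q := by
  obtain ⟨w, hw⟩ := qt_surj N q
  have : {k | ∃ w : F, w.norm = k ∧ qt N w = q}.Nonempty := ⟨w.norm, w, rfl, hw⟩
  exact Nat.sInf_mem this

noncomputable instance (N : ℕ) : Fintype (Q N) := Fintype.ofFinite _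

/-- separation parameter -/
noncomputable def D (N : ℕ) : ℕ := N + 1 + ∑ q : Q N, lq N q

theorem lq_le (N : ℕ) (q : Q N) : lq N q ≤ D N := by
  have : lq N q ≤ ∑ q : Q N, lq N q :=
    Finset.single_le_sum (f := fun q => lq N q) (fun _ _ => Nat.zero_le _) (Finset.mem_univ q)
  unfold D
  omega

theorem D_ge (N : ℕ) : N + 1 ≤ D N := by unfold D; omega

theorem len_le_D {x y : X} (h : Rl x y) : len x y ≤ D x.n := by
  obtain ⟨N, p⟩ := x
  obtain ⟨M, q⟩ := y
  have hNM : N = M := Rl_fst h
  subst hNM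
  obtain ⟨w, hw, hwq⟩ := lq_spec N (p⁻¹ * q)
  have h1 : act w ⟨N, p⟩ = ⟨N, q⟩ := by
    simp only [act, hwq, mul_inv_cancel_left]
  exact (len_le h1).trans (hw.le.trans (lq_le N _))

open Classical in
/-- the distance -/
noncomputable def dN (x y : X) : ℕ := if Rl x y then len x y else D x.n + D y.n

theorem dN_pos {x y : X} (h : Rl x y) : dN x y = len x y := if_pos h
theorem dN_neg {x y : X} (h : ¬ Rl x y) : dN x y = D x.n + D y.n := if_neg h

theorem len_self (x : X) : len x x = 0 := by
  have := len_le (act_one x)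
  rw [FreeGroup.norm_one] at this
  omega

theorem len_symm_le {x y : X} (h : Rl x y) : len y x ≤ len x y := by
  obtain ⟨w, hw, rfl⟩ := len_spec h
  rw [← hw, ← FreeGroup.norm_inv_eq]
  exact len_le (act_inv_act w x)

theorem len_symm {x y : X} (h : Rl x y) : len x y = len y x :=
  le_antisymm (len_symm_le (Rl_symm h)) (len_symm_le h)

theorem len_trans {x y z : X} (h : Rl x y) (h' : Rl y z) : len x z ≤ len x y + len y z := by
  obtain ⟨w, hw, rfl⟩ := len_spec h
  obtain ⟨v, hv, rfl⟩ := len_spec h'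
  rw [← hw, ← hv]
  exact (len_le (act_mul w v x)).trans (FreeGroup.norm_mul_le w v)

theorem len_zero {x y : X} (h : Rl x y) (h0 : len x y = 0) : x = y := by
  obtain ⟨w, hw, hwy⟩ := len_spec h
  rw [h0, FreeGroup.norm_eq_zero] at hw
  rw [hw, act_one] at hwy
  exact hwy

theorem dN_self (x : X) : dN x x = 0 := by rw [dN_pos (Rl_refl x), len_self]

theorem dN_comm (x y : X) : dN x y = dN y x := by
  by_cases h : Rl x y
  · rw [dN_pos h, dN_pos (Rl_symm h), len_symm h]
  · rw [dN_neg h, dN_neg fun h' => h (Rl_symm h'), add_comm]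

theorem dN_triangle (x y z : X) : dN x z ≤ dN x y + dN y z := by
  by_cases hxy : Rl x y
  · by_cases hyz : Rl y z
    · rw [dN_pos hxy, dN_pos hyz, dN_pos (Rl_trans hxy hyz)]
      exact len_trans hxy hyz
    · have hxz : ¬ Rl x z := fun h => hyz (Rl_trans (Rl_symm hxy) h)
      rw [dN_neg hyz, dN_neg hxz, Rl_fst hxy]
      omega
  · by_cases hyz : Rl y z
    · have hxz : ¬ Rl x z := fun h => hxy (Rl_trans h (Rl_symm hyz))
      rw [dN_neg hxy, dN_neg hxz, Rl_fst hyz]
      omega
    · rw [dN_neg hxy, dN_neg hyz]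
      by_cases hxz : Rl x z
      · rw [dN_pos hxz]
        have := len_le_D hxz
        omega
      · rw [dN_neg hxz]
        omega

theorem eq_of_dN {x y : X} (h : dN x y = 0) : x = y := by
  by_cases hxy : Rl x y
  · rw [dN_pos hxy] at h
    exact len_zero hxy h
  · rw [dN_neg hxy] at h
    have := D_ge x.n
    omega

noncomputable instance : MetricSpace X where
  dist x y := (dN x y : ℝ)
  dist_self x := by rw [dN_self]; simp
  dist_comm x y := by rw [dN_comm]
  dist_triangle x y z := by exact_mod_cast dN_triangle x y z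
  eq_of_dist_eq_zero {x y} h := eq_of_dN (by exact_mod_cast h)

theorem dist_def (x y : X) : dist x y = (dN x y : ℝ) := rfl

/-- bounded geometry -/
theorem bdd_geom (R : ℝ) : ∃ N : ℕ, ∀ x : X,
    (Metric.ball x R).Finite ∧ (Metric.ball x R).ncard ≤ N := by
  set m : ℕ := ⌈R⌉₊ with hm
  have hRm : R ≤ m := Nat.le_ceil R
  have hE : {y : X | y.n < m}.Finite := by
    have : {y : X | y.n < m} = ⋃ N ∈ Finset.range m, range (fun q : Q N => (⟨N, q⟩ : X)) := by
      ext ⟨N, q⟩
      simp only [mem_setOf_eq, Finset.mem_range, mem_iUnion, mem_range, exists_prop]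
      constructor
      · intro h
        exact ⟨N, h, q, rfl⟩
      · rintro ⟨M, hM, q', h⟩
        have : M = N := congrArg X.n h
        rw [← this]; exact hM
    rw [this]
    exact Set.Finite.biUnion (Finset.finite_toSet _) fun N _ => finite_range _
  have hB := ball_finite m
  refine ⟨hB.toFinset.card + hE.toFinset.card, fun x => ?_⟩
  have hsub : Metric.ball x R ⊆ (fun w => act w x) '' {w : F | w.norm ≤ m} ∪ {y : X | y.n < m} := by
    intro y hy
    rw [Metric.mem_ball, dist_comm, dist_def] at hy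
    have hy' : dN x y < m := by
      have : (dN x y : ℝ) < m := lt_of_lt_of_le hy hRm
      exact_mod_cast this
    by_cases h : Rl x y
    · left
      rw [dN_pos h] at hy'
      obtain ⟨w, hw, hwy⟩ := len_spec h
      exact ⟨w, by rw [mem_setOf_eq, hw]; exact hy'.le, hwy⟩
    · right
      rw [dN_neg h] at hy'
      have := D_ge y.n
      change y.n < m
      omega
  have hfin : ((fun w => act w x) '' {w : F | w.norm ≤ m} ∪ {y : X | y.n < m}).Finite :=
    (hB.image _).union hE
  refine ⟨hfin.subset hsub, ?_⟩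
  refine (ncard_le_ncard hsub hfin).trans ((ncard_union_le _ _).trans ?_)
  refine add_le_add ((ncard_image_le hB).trans ?_) ?_
  · rw [ncard_eq_toFinset_card _ hB]
  · rw [ncard_eq_toFinset_card _ hE]

end Pool.Agent.Q202.PA
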